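import Pool.Agent.H672R3.InfRec
import Pool.Agent.W68.GapMain

/-!
Sum subsystems all of whose block vectors are frequent vectors of normalised gaps of consecutive primes,
at all scales up to the record scale.
-/

set_option autoImplicit false

open Finset Filter Topology

namespace Pool.Agent.W100.MC

open Pool.Agent.H256R2.SC (ff)
open Pool.Agent.H672R3.SimRec (Occ window)
open Pool.Agent.H752R3.MT Pool.Agent.W68.Mil

/-- the blocks of `m + 1` consecutive primes of `(X, 4X]` in the classes `a i` whose gaps divided by `H`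
are within `ε` of `v` -/
def Blocks (m q : ℕ) (a : Fin (m + 1) → ℕ) (X H ε : ℝ) (v : Fin m → ℝ) : Set ℕ :=
  {n | X < (Nat.nth Nat.Prime n : ℝ) ∧ (Nat.nth Nat.Prime (n + m) : ℝ) ≤ 4 * X ∧
    (∀ i : Fin (m + 1), Nat.nth Nat.Prime (n + i) ≡ a i [MOD q]) ∧
    ∀ i : Fin m, |((Nat.nth Nat.Prime (n + i + 1) : ℝ) - Nat.nth Nat.Prime (n + i)) / H - v i| < ε}

theorem blocks_finite (m q : ℕ) (a : Fin (m + 1) → ℕ) (X H δ : ℝ) (v : Fin m → ℝ) :
    (Blocks m q a X H δ v).Finite := by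
  refine (Set.finite_Iic ⌊4 * X⌋₊).subset ?_
  rintro n ⟨-, h2, -⟩
  refine Nat.le_floor (le_trans ?_ h2)
  have h3 : n + m ≤ Nat.nth Nat.Prime (n + m) :=
    (Nat.nth_strictMono Nat.infinite_setOf_prime).le_apply
  exact_mod_cast (Nat.le_add_right n m).trans h3

theorem blocks_mono (m q : ℕ) (a : Fin (m + 1) → ℕ) (X H : ℝ) {ε ε' : ℝ} (h : ε ≤ ε')
    (v : Fin m → ℝ) : Blocks m q a X H ε v ⊆ Blocks m q a X H ε' v :=
  fun _ hn => ⟨hn.1, hn.2.1, hn.2.2.1, fun i => (hn.2.2.2 i).trans_le h⟩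

/-- for every `ε` there are infinitely many `k` for which there are at least `X_k^(7/8)` blocks -/
def Freq (m q : ℕ) (a : Fin (m + 1) → ℕ) (X H : ℕ → ℝ) (v : Fin m → ℝ) : Prop :=
  ∀ ε : ℝ, 0 < ε → ∃ᶠ k : ℕ in atTop,
    (X k) ^ (7 / 8 : ℝ) ≤ ((Blocks m q a (X k) (H k) ε v).ncard : ℝ)

theorem lpk (m : ℕ) : ∃ K : ℕ, ∃ c : ℝ, 0 < c ∧ ∀ q : ℕ, Squarefree q →
    ∀ (X H : ℕ → ℝ) (B : ℝ), 0 < B → Tendsto X atTop atTop →
    (∀ᶠ k in atTop, Real.log (X k) ≤ B * H k ∧ B * H k ≤ c * ff (X k)) →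
    ∀ β : Fin K → ℝ, StrictMono β → (∀ j, 0 ≤ β j ∧ β j ≤ B) →
    ∀ a : Fin K → ℕ, (∀ j, (a j).Coprime q) →
    ∃ j : Fin (m + 1) → Fin K, StrictMono j ∧
      Freq m q (fun i => a (j i)) X H (fun i : Fin m => β (j i.succ) - β (j i.castSucc)) := by
  classical
  obtain ⟨K, c, hc, hw⟩ := window m
  refine ⟨K, c, hc, ?_⟩
  intro q hq X H B hB hX hH β hβ hβB a ha
  by_contra hcon
  push Not at hcon
  have h1 : ∀ j : Fin (m + 1) → Fin K, ∃ ε : ℝ, 0 < ε ∧ (StrictMono j → ∀ᶠ k : ℕ in atTop,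
      ¬ (X k) ^ (7 / 8 : ℝ) ≤ ((Blocks m q (fun i => a (j i)) (X k) (H k) ε
        (fun i => β (j i.succ) - β (j i.castSucc))).ncard : ℝ)) := by
    intro j
    by_cases hj : StrictMono j
    · have h2 := hcon j hj
      simp only [Freq, not_forall, not_frequently] at h2
      obtain ⟨ε, hε, h3⟩ := h2
      exact ⟨ε, hε, fun _ => h3⟩
    · exact ⟨1, one_pos, fun h => absurd h hj⟩
  choose εf hεf hev using h1
  obtain ⟨ε, hε, hεle⟩ := Pool.Agent.H672R3.InfRec.exists_min_pos εf hεf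
  have hev2 : ∀ᶠ k : ℕ in atTop, ∀ j : Fin (m + 1) → Fin K, StrictMono j →
      ¬ (X k) ^ (7 / 8 : ℝ) ≤ ((Blocks m q (fun i => a (j i)) (X k) (H k) ε
        (fun i => β (j i.succ) - β (j i.castSucc))).ncard : ℝ) := by
    rw [eventually_all]
    intro j
    by_cases hj : StrictMono j
    · filter_upwards [hev j hj] with k hk _ hk2
      refine hk (hk2.trans ?_)
      exact_mod_cast Set.ncard_le_ncard (blocks_mono m q _ _ _ (hεle j) _) (blocks_finite _ _ _ _ _ _ _)
    · exact Eventually.of_forall fun k hk => absurd hk hj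
  set δ : ℝ := ε / (2 * B) with hδ
  have hδ0 : 0 < δ := by positivity
  have hδB : B * δ < ε := by
    have : B * δ = ε / 2 := by rw [hδ]; field_simp
    rw [this]; linarith
  have hw2 := hX.eventually (hw δ hδ0 q hq)
  obtain ⟨k, hk1, hk2, hk3, hk4⟩ := (hev2.and (hw2.and (hH.and
    (hX.eventually_gt_atTop 1)))).exists
  have hlog : 0 < Real.log (X k) := Real.log_pos hk4
  have hBH : 0 < B * H k := hlog.trans_le hk3.1
  have hHk : 0 < H k := by
    by_contra h
    push Not at h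
    nlinarith
  obtain ⟨j, hj, hcard⟩ := hk2 (B * H k) hk3.1 hk3.2 (fun j => β j / B)
    (fun i j hij => div_lt_div_of_pos_right (hβ hij) hB)
    (fun j => ⟨div_nonneg (hβB j).1 hB.le, (div_le_one hB).2 (hβB j).2⟩) a ha
  refine hk1 j hj (hcard.trans ?_)
  have hsub : Occ m q (fun i => a (j i)) (X k) (B * H k) δ
      (fun i => β (j i.succ) / B - β (j i.castSucc) / B) ⊆
      Blocks m q (fun i => a (j i)) (X k) (H k) ε (fun i => β (j i.succ) - β (j i.castSucc)) := by
    rintro n ⟨h1, h2, h3, h4⟩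
    refine ⟨h1, h2, h3, fun i => ?_⟩
    have h5 := h4 i
    set g : ℝ := (Nat.nth Nat.Prime (n + i + 1) : ℝ) - Nat.nth Nat.Prime (n + i) with hg
    have e1 : g / H k - (β (j i.succ) - β (j i.castSucc)) =
        B * (g / (B * H k) - (β (j i.succ) / B - β (j i.castSucc) / B)) := by
      field_simp
    rw [e1, abs_mul, abs_of_pos hB]
    exact (mul_le_mul_of_nonneg_left h5 hB.le).trans_lt hδB
  exact_mod_cast Set.ncard_le_ncard hsub (blocks_finite _ _ _ _ _ _ _)

/-- the property of block sequences -/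
def good (m q : ℕ) (a : Finset ℕ → ℕ) (X H : ℕ → ℝ) (x : ℕ → ℝ) (Z : ℕ → Finset ℕ) : Prop :=
  Freq m q (fun i => a ((range (i + 1)).biUnion Z)) X H (fun i => ∑ u ∈ Z (i + 1), x u)

theorem good_congr {m q : ℕ} {a : Finset ℕ → ℕ} {X H : ℕ → ℝ} {x : ℕ → ℝ} {Z Z' : ℕ → Finset ℕ}
    (h : ∀ i < m + 1, Z' i = Z i) : good m q a X H x Z' ↔ good m q a X H x Z := by
  have e1 : (fun i : Fin (m + 1) => a ((range (i + 1)).biUnion Z')) =
      fun i : Fin (m + 1) => a ((range (i + 1)).biUnion Z) := by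
    funext i
    congr 1
    refine Finset.biUnion_congr rfl fun l hl => h l ?_
    have := Finset.mem_range.1 hl
    omega
  have e2 : (fun i : Fin m => ∑ u ∈ Z' (i + 1), x u) = fun i : Fin m => ∑ u ∈ Z (i + 1), x u := by
    funext i
    rw [h (i + 1) (by omega)]
  unfold good
  rw [e1, e2]

theorem blk_disj {V : ℕ → Finset ℕ} (hV : Blk V) {i j : ℕ} (hij : i ≠ j) :
    Disjoint (V i) (V j) := by
  rw [Finset.disjoint_left]
  intro a ha hb
  rcases Nat.lt_or_gt_of_ne hij with h | h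
  · exact absurd (hV.lt h a ha a hb) (lt_irrefl a)
  · exact absurd (hV.lt h a hb a ha) (lt_irrefl a)

theorem sum_biUnion_blk {V : ℕ → Finset ℕ} (hV : Blk V) (x : ℕ → ℝ) (I : Finset ℕ) :
    ∑ u ∈ I.biUnion V, x u = ∑ l ∈ I, ∑ u ∈ V l, x u :=
  Finset.sum_biUnion (fun _ _ _ _ hij => blk_disj hV hij)

/-- conditions on the scale: `H` is at least a constant times `log X` and of smaller order than `ff X` -/
def Small (X H : ℕ → ℝ) : Prop :=
  (∃ c : ℝ, 0 < c ∧ ∀ᶠ k in atTop, c * Real.log (X k) ≤ H k) ∧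
    ∀ ε : ℝ, 0 < ε → ∀ᶠ k in atTop, H k ≤ ε * ff (X k)

/-- conditions on the scale: `H` is of larger order than `log X` and at most of order `ff X` -/
def Large (X H : ℕ → ℝ) : Prop :=
  (∃ C : ℝ, 0 < C ∧ ∀ᶠ k in atTop, H k ≤ C * ff (X k)) ∧
    ∀ ε : ℝ, 0 < ε → ∀ᶠ k in atTop, Real.log (X k) ≤ ε * H k

theorem good_exists (m q : ℕ) (hq : Squarefree q) (a : Finset ℕ → ℕ) (ha : ∀ C, (a C).Coprime q)
    (X H : ℕ → ℝ) (hX : Tendsto X atTop atTop) (x : ℕ → ℝ) (hx : ∀ i, 0 < x i)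
    (hH : Small X H ∨ (Large X H ∧ Summable x)) (V : ℕ → Finset ℕ) (hV : Blk V) :
    ∃ Y, Blk Y ∧ Le Y V ∧ good m q a X H x Y := by
  classical
  obtain ⟨K, c, hc, hlp⟩ := lpk m
  -- a tail of `V` and `B`
  obtain ⟨N, B, hB, hBH, hBV⟩ : ∃ (N : ℕ) (B : ℝ), 0 < B ∧
      (∀ᶠ k in atTop, Real.log (X k) ≤ B * H k ∧ B * H k ≤ c * ff (X k)) ∧
      ∑ l ∈ range K, ∑ u ∈ V (N + l), x u ≤ B := by
    rcases hH with ⟨⟨c0, hc0, h1⟩, h2⟩ | ⟨⟨⟨C, hC, h1⟩, h2⟩, hs⟩
    · set T := ∑ l ∈ range K, ∑ u ∈ V (0 + l), x u with hT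
      refine ⟨0, max (1 / c0) T, lt_of_lt_of_le (by positivity) (le_max_left _ _), ?_,
        le_max_right _ _⟩
      set B := max (1 / c0) T with hBdef
      have hB : 0 < B := lt_of_lt_of_le (by positivity) (le_max_left _ _)
      filter_upwards [h1, h2 (c / B) (by positivity), hX.eventually_gt_atTop 1] with k hk1 hk2 hk3
      have hlog : 0 < Real.log (X k) := Real.log_pos hk3
      constructor
      · have h3 : 1 / c0 ≤ B := le_max_left _ _
        have h4 : 1 ≤ B * c0 := by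
          rw [div_le_iff₀ hc0] at h3
          exact h3
        calc Real.log (X k) = 1 * Real.log (X k) := (one_mul _).symm
          _ ≤ (B * c0) * Real.log (X k) := mul_le_mul_of_nonneg_right h4 hlog.le
          _ = B * (c0 * Real.log (X k)) := by ring
          _ ≤ B * H k := mul_le_mul_of_nonneg_left hk1 hB.le
      · calc B * H k ≤ B * (c / B * ff (X k)) := mul_le_mul_of_nonneg_left hk2 hB.le
          _ = c * ff (X k) := by field_simp
    · set B := c / C with hBdef
      have hB : 0 < B := by positivity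
      -- tails
      have htail : Tendsto (fun n => ∑' i, x (i + n)) atTop (𝓝 0) := tendsto_sum_nat_add x
      obtain ⟨N, hN⟩ := (htail.eventually (ge_mem_nhds hB)).exists
      refine ⟨N, B, hB, ?_, ?_⟩
      · filter_upwards [h1, h2 B hB] with k hk1 hk2
        refine ⟨hk2, ?_⟩
        calc B * H k ≤ B * (C * ff (X k)) := mul_le_mul_of_nonneg_left hk1 hB.le
          _ = c * ff (X k) := by rw [hBdef]; field_simp
      · have hVN : Blk (fun l => V (N + l)) := Blk.tail hV N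
        rw [← sum_biUnion_blk hVN x (range K)]
        refine le_trans ?_ hN
        -- elements are at least `N`
        have hge : ∀ u ∈ (range K).biUnion (fun l => V (N + l)), N ≤ u := by
          intro u hu
          obtain ⟨l, -, hl⟩ := Finset.mem_biUnion.1 hu
          exact (Nat.le_add_right N l).trans (Blk.ge hV (N + l) u hl)
        have hsum : Summable (fun i => x (i + N)) := (summable_nat_add_iff N).2 hs
        have e : ∑ u ∈ (range K).biUnion (fun l => V (N + l)), x u =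
            ∑ i ∈ ((range K).biUnion (fun l => V (N + l))).image (fun u => u - N), x (i + N) := by
          rw [Finset.sum_image]
          · refine Finset.sum_congr rfl fun u hu => ?_
            rw [Nat.sub_add_cancel (hge u hu)]
          · intro u hu v hv huv
            have h3 := hge u (by simpa using hu)
            have h4 := hge v (by simpa using hv)
            simp only at huv
            omega
        rw [e]
        exact hsum.sum_le_tsum _ (fun i _ => (hx _).le)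
  set V' : ℕ → Finset ℕ := fun l => V (N + l) with hV'
  have hVB : Blk V' := Blk.tail hV N
  have hpos : ∀ l, 0 < ∑ u ∈ V' l, x u := fun l => Finset.sum_pos (fun u _ => hx u) (hVB.1 l)
  set P : ℕ → ℝ := fun n => ∑ l ∈ range n, ∑ u ∈ V' l, x u with hP
  have hPm : StrictMono P := strictMono_nat_of_lt_succ fun n => by
    simp only [hP, Finset.sum_range_succ]
    linarith [hpos n]
  have hP0 : P 0 = 0 := by simp [hP]
  obtain ⟨j, hj, hfreq⟩ := hlp q hq X H B hB hX hBH (fun i => P ((i : ℕ) + 1))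
    (fun i i' h => hPm (by have : (i : ℕ) < i' := h; omega))
    (fun i => ⟨by rw [← hP0]; exact hPm.monotone (Nat.zero_le _),
      (hPm.monotone (by have := i.2; omega : (i : ℕ) + 1 ≤ K)).trans hBV⟩)
    (fun i => a ((range ((i : ℕ) + 1)).biUnion V')) (fun i => ha _)
  -- the cut points
  set μ : ℕ → ℕ := fun n => if n = 0 then 0 else
    if h : n - 1 < m + 1 then (j ⟨n - 1, h⟩ : ℕ) + 1 else K + n with hμ
  have hμ0 : μ 0 = 0 := by simp [hμ]
  have hμs : ∀ i : Fin (m + 1), μ ((i : ℕ) + 1) = (j i : ℕ) + 1 := by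
    intro i
    have h1 : (i : ℕ) + 1 - 1 < m + 1 := by have := i.2; omega
    simp only [hμ, Nat.succ_ne_zero, if_false, dif_pos h1]
    congr 2
  have hμl : ∀ n, m + 1 ≤ n - 1 → μ n = K + n := by
    intro n hn
    have h1 : ¬ (n - 1 < m + 1) := by omega
    have h2 : n ≠ 0 := by omega
    simp only [hμ, h2, if_false, dif_neg h1]
  have hμm : StrictMono μ := by
    refine strictMono_nat_of_lt_succ fun n => ?_
    rcases Nat.eq_zero_or_pos n with rfl | hn
    · rw [hμ0, hμs ⟨0, by omega⟩]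
      omega
    · by_cases h1 : n < m + 1
      · have e1 : μ n = (j ⟨n - 1, by omega⟩ : ℕ) + 1 := by
          have := hμs ⟨n - 1, by omega⟩
          simp only at this
          rwa [Nat.sub_add_cancel hn] at this
        have e2 : μ (n + 1) = (j ⟨n, h1⟩ : ℕ) + 1 := hμs ⟨n, h1⟩
        rw [e1, e2]
        have h3 : (j ⟨n - 1, by omega⟩ : ℕ) < (j ⟨n, h1⟩ : ℕ) := by
          refine hj ?_
          show n - 1 < n
          omega
        omega
      · have e2 : μ (n + 1) = K + (n + 1) := hμl _ (by omega)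
        rw [e2]
        by_cases h2 : n - 1 < m + 1
        · have e1 : μ n = (j ⟨n - 1, h2⟩ : ℕ) + 1 := by
            have := hμs ⟨n - 1, h2⟩
            simp only at this
            rwa [Nat.sub_add_cancel hn] at this
          rw [e1]
          have := (j ⟨n - 1, h2⟩).2
          omega
        · rw [hμl n (by omega)]
          omega
  set Y : ℕ → Finset ℕ := fun l => (Finset.Ico (μ l) (μ (l + 1))).biUnion V' with hY
  have hIco : ∀ l, (Finset.Ico (μ l) (μ (l + 1))).Nonempty := fun l =>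
    Finset.nonempty_Ico.2 (hμm (Nat.lt_succ_self l))
  have hBlkI : Blk (fun l => Finset.Ico (μ l) (μ (l + 1))) := by
    refine ⟨hIco, fun i x hx y hy => ?_⟩
    rw [Finset.mem_Ico] at hx hy
    omega
  have hYB : Blk Y := hBlkI.comp hVB
  have hLe : Le Y V := by
    intro l
    have h1 : V' = fun l => V (N + l) := rfl
    have h2 : Le V' V := Le.tail V N
    exact FU_mono h2 ⟨_, hIco l, rfl⟩
  refine ⟨Y, hYB, hLe, ?_⟩
  have hun : ∀ i : ℕ, (range (i + 1)).biUnion Y = (range (μ (i + 1))).biUnion V' := by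
    intro i
    simp only [hY]
    rw [← Finset.biUnion_biUnion]
    congr 1
    ext t
    simp only [Finset.mem_biUnion, Finset.mem_range, Finset.mem_Ico]
    constructor
    · rintro ⟨l, hl, h1, h2⟩
      exact h2.trans_le (hμm.monotone (by omega))
    · intro ht
      induction i with
      | zero => exact ⟨0, by omega, by rw [hμ0]; omega, ht⟩
      | succ i ih =>
        by_cases h1 : t < μ (i + 1)
        · obtain ⟨l, hl, h2⟩ := ih h1
          exact ⟨l, by omega, h2⟩
        · exact ⟨i + 1, by omega, by omega, ht⟩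
  have hsm : ∀ l, ∑ u ∈ Y l, x u = P (μ (l + 1)) - P (μ l) := by
    intro l
    simp only [hY, hP]
    rw [sum_biUnion_blk hVB, Finset.sum_Ico_eq_sub _ (hμm (Nat.lt_succ_self l)).le]
  unfold good
  have e1 : (fun i : Fin (m + 1) => a ((range (i + 1)).biUnion Y)) =
      fun i : Fin (m + 1) => a ((range ((j i : ℕ) + 1)).biUnion V') := by
    funext i
    rw [hun, hμs i]
  have e2 : (fun i : Fin m => ∑ u ∈ Y (i + 1), x u) =
      fun i : Fin m => P ((j i.succ : ℕ) + 1) - P ((j i.castSucc : ℕ) + 1) := by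
    funext i
    rw [hsm]
    have h1 := hμs i.succ
    have h2 := hμs i.castSucc
    simp only [Fin.val_succ, Fin.val_castSucc] at h1 h2
    rw [h1, h2]
  rw [e1, e2]
  exact hfreq

theorem main_summable (X H : ℕ → ℕ → ℝ) (hX : ∀ s, Tendsto (X s) atTop atTop)
    (x : ℕ → ℕ → ℝ) (hx : ∀ s i, 0 < x s i)
    (hH : ∀ s, Small (X s) (H s) ∨ (Large (X s) (H s) ∧ Summable (x s)))
    (q : ℕ → ℕ) (hq : ∀ s, Squarefree (q s)) (a : ℕ → Finset ℕ → ℕ)
    (ha : ∀ s C, (a s C).Coprime (q s)) :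
    ∃ W : ℕ → Finset ℕ, Blk W ∧ ∀ s m : ℕ, ∃ N : ℕ, ∀ F : ℕ → Finset ℕ,
      (∀ i < m + 1, (F i).Nonempty) → (∀ i < m + 1, ∀ u ∈ F i, N ≤ u) →
      (∀ i, i + 1 < m + 1 → ∀ u ∈ F i, ∀ v ∈ F (i + 1), u < v) →
      Freq m (q s) (fun i => a s (((range (i + 1)).biUnion F).biUnion W)) (X s) (H s)
        (fun i => ∑ u ∈ (F (i + 1)).biUnion W, x s u) := by
  classical
  obtain ⟨W, hW, hWg⟩ := closed_families
    (fun r => good (Nat.unpair r).2 (q (Nat.unpair r).1) (a (Nat.unpair r).1) (X (Nat.unpair r).1)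
      (H (Nat.unpair r).1) (x (Nat.unpair r).1))
    (fun r Z _ hg => ⟨(Nat.unpair r).2 + 1, fun Z' _ hZZ hg' => hg ((good_congr hZZ).1 hg')⟩)
    (fun r V hV => good_exists _ _ (hq _) _ (ha _) _ _ (hX _) _ (hx _) (hH _) V hV)
  refine ⟨W, hW, fun s m => ⟨Nat.pair s m, fun F hF1 hF2 hF3 => ?_⟩⟩
  obtain ⟨G, hG1, hG2, hG3, -⟩ := Pool.Agent.W68.Gap.extend (Nat.pair s m) (m + 1) F hF1 hF2 hF3 0
  set Z : ℕ → Finset ℕ := fun l => (G l).biUnion W with hZ
  have hZB : Blk Z := hG1.comp hW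
  have hZL : Le Z (fun i => W (Nat.pair s m + i)) := by
    intro l
    refine ⟨(G l).image (fun i => i - Nat.pair s m), (hG1.1 l).image _, ?_⟩
    simp only [hZ]
    rw [Finset.image_biUnion]
    refine Finset.biUnion_congr rfl fun i hi => ?_
    have := hG3 l i hi
    congr 1
    omega
  have hg := hWg (Nat.pair s m) Z hZB hZL
  simp only [Nat.unpair_pair] at hg
  unfold good at hg
  have e1 : (fun i : Fin (m + 1) => a s ((range (i + 1)).biUnion Z)) =
      fun i : Fin (m + 1) => a s (((range (i + 1)).biUnion F).biUnion W) := by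
    funext i
    congr 1
    simp only [hZ]
    rw [← Finset.biUnion_biUnion]
    congr 1
    refine Finset.biUnion_congr rfl fun l hl => hG2 l ?_
    have := Finset.mem_range.1 hl
    omega
  have e2 : (fun i : Fin m => ∑ u ∈ Z (i + 1), x s u) =
      fun i : Fin m => ∑ u ∈ (F (i + 1)).biUnion W, x s u := by
    funext i
    simp only [hZ]
    rw [hG2 (i + 1) (by omega)]
  rw [e1, e2] at hg
  exact hg

/-- thinning: a subsequence along which countably many null sequences are summable -/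
theorem thin (x : ℕ → ℕ → ℝ) (hx : ∀ s i, 0 < x s i) :
    ∃ φ : ℕ → ℕ, StrictMono φ ∧ ∀ s, Tendsto (x s) atTop (𝓝 0) → Summable (fun i => x s (φ i)) := by
  classical
  have h1 : ∀ i n : ℕ, ∃ k, n < k ∧ ∀ s ≤ i, Tendsto (x s) atTop (𝓝 0) → x s k ≤ (1 / 2) ^ i := by
    intro i n
    have h2 : ∀ᶠ k in atTop, ∀ s ∈ Finset.range (i + 1), Tendsto (x s) atTop (𝓝 0) →
        x s k ≤ (1 / 2) ^ i := by
      rw [Filter.eventually_all_finset]
      intro s _
      by_cases hs : Tendsto (x s) atTop (𝓝 0)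
      · filter_upwards [hs.eventually (ge_mem_nhds (show (0 : ℝ) < (1 / 2) ^ i by positivity))]
          with k hk _
        exact hk
      · exact Eventually.of_forall fun k h => absurd h hs
    obtain ⟨k, hk1, hk2⟩ := (h2.and (eventually_gt_atTop n)).exists
    exact ⟨k, hk2, fun s hs => hk1 s (Finset.mem_range.2 (by omega))⟩
  choose c hc1 hc2 using h1
  let φ : ℕ → ℕ := fun n => Nat.rec (c 0 0) (fun j y => c (j + 1) y) n
  have hs0 : ∀ n, φ (n + 1) = c (n + 1) (φ n) := fun n => rfl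
  refine ⟨φ, strictMono_nat_of_lt_succ fun n => by rw [hs0]; exact hc1 _ _, fun s hs => ?_⟩
  have hb : ∀ i, s ≤ i → x s (φ i) ≤ (1 / 2) ^ i := by
    intro i hi
    rcases i with _ | i
    · exact hc2 0 0 s hi hs
    · rw [hs0]
      exact hc2 (i + 1) (φ i) s hi hs
  rw [← summable_nat_add_iff s]
  refine Summable.of_nonneg_of_le (fun i => (hx _ _).le) (fun i => hb (i + s) (Nat.le_add_left _ _)) ?_
  have : Summable (fun i : ℕ => ((1 : ℝ) / 2) ^ i) := summable_geometric_two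
  exact (summable_nat_add_iff s).2 this

theorem main (X H : ℕ → ℕ → ℝ) (hX : ∀ s, Tendsto (X s) atTop atTop)
    (x : ℕ → ℕ → ℝ) (hx : ∀ s i, 0 < x s i)
    (hH : ∀ s, Small (X s) (H s) ∨ (Large (X s) (H s) ∧ Tendsto (x s) atTop (𝓝 0)))
    (q : ℕ → ℕ) (hq : ∀ s, Squarefree (q s)) (a : ℕ → Finset ℕ → ℕ)
    (ha : ∀ s C, (a s C).Coprime (q s)) :
    ∃ W : ℕ → Finset ℕ, Blk W ∧ ∀ s m : ℕ, ∃ N : ℕ, ∀ F : ℕ → Finset ℕ,
      (∀ i < m + 1, (F i).Nonempty) → (∀ i < m + 1, ∀ u ∈ F i, N ≤ u) →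
      (∀ i, i + 1 < m + 1 → ∀ u ∈ F i, ∀ v ∈ F (i + 1), u < v) →
      Freq m (q s) (fun i => a s (((range (i + 1)).biUnion F).biUnion W)) (X s) (H s)
        (fun i => ∑ u ∈ (F (i + 1)).biUnion W, x s u) := by
  classical
  obtain ⟨φ, hφ, hφs⟩ := thin x hx
  obtain ⟨W, hW, h⟩ := main_summable X H hX (fun s i => x s (φ i)) (fun s i => hx _ _)
    (fun s => (hH s).imp id fun h => ⟨h.1, hφs s h.2⟩) q hq (fun s C => a s (C.image φ))
    (fun s C => ha _ _)
  refine ⟨fun i => (W i).image φ, ⟨fun i => (hW.1 i).image _, fun i u hu v hv => ?_⟩,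
    fun s m => ?_⟩
  · obtain ⟨u', hu', rfl⟩ := Finset.mem_image.1 hu
    obtain ⟨v', hv', rfl⟩ := Finset.mem_image.1 hv
    exact hφ (hW.2 i u' hu' v' hv')
  · obtain ⟨N, hN⟩ := h s m
    refine ⟨N, fun F h1 h2 h3 => ?_⟩
    have h4 := hN F h1 h2 h3
    have key : ∀ I : Finset ℕ, I.biUnion (fun i => (W i).image φ) = (I.biUnion W).image φ := by
      intro I
      ext t
      simp only [Finset.mem_biUnion, Finset.mem_image]
      constructor
      · rintro ⟨i, hi, u, hu, rfl⟩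
        exact ⟨u, ⟨i, hi, hu⟩, rfl⟩
      · rintro ⟨u, ⟨i, hi, hu⟩, rfl⟩
        exact ⟨i, hi, u, hu, rfl⟩
    simp only [key]
    have e2 : (fun i : Fin m => ∑ u ∈ ((F (i + 1)).biUnion W).image φ, x s u) =
        fun i : Fin m => ∑ u ∈ (F (i + 1)).biUnion W, x s (φ u) := by
      funext i
      exact Finset.sum_image (fun u _ v _ h => hφ.injective h)
    rw [e2]
    exact h4

end Pool.Agent.W100.MC
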